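import Pool.Agent.Helper68.Dom.Goals

/-!
# Packet DOM-ORD5

A member of `M_n` with at most `n + 5` vertices is complete on `n + 5` vertices.
-/

namespace NApexGraphs.Dom.Helper95

open SimpleGraph NApexGraphs NApexGraphs.Dom

/-- if `G` is not `n`-apex and all except at most `n` vertices are in the finset `Q`, then
`Q` contains a `K₅` or a `K₃,₃` model. -/
lemma model_of_not_apex {V : Type} [Fintype V] [DecidableEq V] {G : SimpleGraph V} {n : ℕ}
    (hG : ¬ NApex n G) (Q : Finset V) (hQ : Fintype.card V ≤ n + Q.card) :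
    HasK5 G (Q : Set V) ∨ HasK33 G (Q : Set V) := by
  by_contra hcon
  push Not at hcon
  apply hG
  refine ⟨Qᶜ, ?_, ?_⟩
  · rw [Finset.card_compl]; omega
  · rw [← pl_iff]
    have : ((Qᶜ : Finset V) : Set V)ᶜ = (Q : Set V) := by
      rw [Finset.coe_compl, compl_compl]
    rw [this]
    exact hcon

lemma card_le_of_sub {V κ : Type} [Fintype κ] {B : κ → Set V} {G : SimpleGraph V}
    {K : SimpleGraph κ} (hB : IsModel K G B) (Q : Finset V) (hQ : ∀ k, B k ⊆ (Q : Set V)) :
    Fintype.card κ ≤ Q.card := by
  have := card_meet_le (B := B) hB.2.1 Q Finset.univ (by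
    intro k _
    obtain ⟨x, hx⟩ := (hB.conn k).1
    exact ⟨x, Finset.mem_coe.1 (hQ k hx), hx⟩)
  simpa using this

theorem gORD5 : Goals.ORD5 := by
  classical
  intro V _ G n hG hcard
  have := Fintype.ofFinite V
  rw [Nat.card_eq_fintype_card] at hcard
  have hlow : n + 5 ≤ Fintype.card V := by
    by_contra hlt
    push Not at hlt
    obtain ⟨Q, hQs, hQc⟩ := Finset.exists_subset_card_eq (s := (Finset.univ : Finset V))
      (n := min 4 (Fintype.card V)) (by rw [Finset.card_univ]; exact min_le_right _ _)
    rcases model_of_not_apex hG.1 Q (by omega) with ⟨B, hB, hs⟩ | ⟨B, hB, hs⟩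
    · have := card_le_of_sub hB Q hs
      rw [Fintype.card_fin] at this
      omega
    · have := card_le_of_sub hB Q hs
      rw [Fintype.card_sum, Fintype.card_fin] at this
      omega
  have hc : Fintype.card V = n + 5 := le_antisymm hcard hlow
  have hall : ∀ a b : V, a ≠ b → G.Adj a b := by
    intro a b hab
    obtain ⟨Q, hQs, hQt, hQc⟩ := Finset.exists_subsuperset_card_eq
      (s := ({a, b} : Finset V)) (t := Finset.univ) (n := 5) (Finset.subset_univ _)
      (by rw [Finset.card_pair hab]; omega) (by rw [Finset.card_univ]; omega)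
    have haQ : a ∈ Q := hQs (by simp)
    have hbQ : b ∈ Q := hQs (by simp)
    rcases model_of_not_apex hG.1 Q (by omega) with ⟨B, hB, hs⟩ | ⟨B, hB, hs⟩
    · have hne : ∀ k, (B k).Nonempty := fun k => (hB.conn k).1
      choose f hf using hne
      have hfQ : ∀ k, f k ∈ Q := fun k => Finset.mem_coe.1 (hs k (hf k))
      have hinj : Function.Injective f := by
        intro k l hkl
        by_contra hne
        exact Set.disjoint_left.1 (hB.2.1 k l hne) (hf k) (hkl ▸ hf l)
      have himg : Finset.univ.image f = Q := by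
        apply Finset.eq_of_subset_of_card_le
        · intro x hx
          obtain ⟨k, _, rfl⟩ := Finset.mem_image.1 hx
          exact hfQ k
        · rw [Finset.card_image_of_injective _ hinj, Finset.card_univ, Fintype.card_fin, hQc]
      have hsur : ∀ x ∈ Q, ∃ k, f k = x := by
        intro x hx
        rw [← himg] at hx
        obtain ⟨k, _, hk⟩ := Finset.mem_image.1 hx
        exact ⟨k, hk⟩
      have hsing : ∀ k x, x ∈ B k → x = f k := by
        intro k x hx
        obtain ⟨j, hj⟩ := hsur x (Finset.mem_coe.1 (hs k hx))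
        have hjk : j = k := by
          by_contra hne
          exact Set.disjoint_left.1 (hB.2.1 j k hne) (hf j) (hj ▸ hx)
        rw [← hj, hjk]
      obtain ⟨k, hk⟩ := hsur a haQ
      obtain ⟨l, hl⟩ := hsur b hbQ
      have hkl : k ≠ l := by
        rintro rfl
        exact hab (hk.symm.trans hl)
      obtain ⟨x, hx, y, hy, hxy⟩ := hB.2.2 k l hkl
      rw [hsing k x hx, hsing l y hy, hk, hl] at hxy
      exact hxy
    · exfalso
      have := card_le_of_sub hB Q hs
      rw [Fintype.card_sum, Fintype.card_fin] at this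
      omega
  have e : V ≃ Fin (n + 5) := Fintype.equivFinOfCardEq hc
  refine ⟨⟨e, ?_⟩⟩
  intro a b
  constructor
  · intro h
    apply hall
    rintro rfl
    exact h.ne rfl
  · intro h
    exact fun he => h.ne (e.injective he)

end NApexGraphs.Dom.Helper95
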